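import Mathlib
import Pool.Agent.Q43.LC.HypAe

/-!
# Prescribed lacunary sets of prime indices for Fibonacci and Lucas polynomials

Let `F x n` and `L x n` be the Fibonacci and Lucas polynomials at a real number `x > 0` (for `x = 1` the
Fibonacci and the Lucas numbers).  If the sum of `1 / m` over a set `S` of indices is finite, then for
almost every `x` only finitely many of the integer parts of `F x m` and of `L x m`, `m ∈ S`, are prime.
For lacunary sets of indices the exceptional set is as large as possible: there is an absolute constant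
`C` such that for all disjoint sets `S`, `T` whose union is lacunary with ratio `C`, the set of the `x` in
any given interval (for example around `x = 1`) for which the integer parts of `F x m` are prime for all
large `m ∈ S` and simultaneously those of `L x m` for all large `m ∈ T` has Hausdorff dimension `1`.
-/

set_option autoImplicit false

namespace Pool.Agent.Results.MP_5893d7_nt.LacunaryIndices

open MeasureTheory

/-- The Fibonacci polynomials at a real point; `F 1 n` is the `n`-th Fibonacci number. -/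
noncomputable def F (x : ℝ) : ℕ → ℝ
  | 0 => 0
  | 1 => 1
  | n + 2 => x * F x (n + 1) + F x n

/-- The Lucas polynomials at a real point; `L 1 n` is the `n`-th Lucas number. -/
noncomputable def L (x : ℝ) : ℕ → ℝ
  | 0 => 2
  | 1 => x
  | n + 2 => x * L x (n + 1) + L x n

/-- Any two elements `m < n` of the set satisfy `C m ≤ n`. -/
def Lacunary (C : ℕ) (S : Set ℕ) : Prop := ∀ m ∈ S, ∀ n ∈ S, m < n → C * m ≤ n

lemma F_eq (x : ℝ) (n : ℕ) : F x n = Pool.Agent.Q43.LC.FF x n := by
  induction n using Nat.twoStepInduction with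
  | zero => rfl
  | one => rfl
  | more n h1 h2 =>
    show x * F x (n + 1) + F x n = _
    rw [h1, h2]
    rfl

lemma L_eq (x : ℝ) (n : ℕ) : L x n = Pool.Agent.Q43.LC.LL x n := by
  induction n using Nat.twoStepInduction with
  | zero => rfl
  | one => rfl
  | more n h1 h2 =>
    show x * L x (n + 1) + L x n = _
    rw [h1, h2]
    rfl

/-- Prescribed lacunary sets of prime indices: dimension `1`; and almost every parameter. -/
theorem result :
    (∀ n : ℕ, F 1 n = Nat.fib n) ∧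
    (∃ C : ℕ, 2 ≤ C ∧ ∀ A B : ℝ → ℝ, ContDiffOn ℝ 1 A (Set.Ioi 0) → (∀ x, 0 < x → 0 < A x) →
      ContDiffOn ℝ 1 B (Set.Ioi 0) → (∀ x, 0 < x → 0 < B x) →
      ∀ S T : Set ℕ, Disjoint S T → Lacunary C (S ∪ T) → ∀ a b : ℝ, 0 ≤ a → a < b →
        dimH {x : ℝ | a < x ∧ x < b ∧ ∃ M : ℕ,
          (∀ m ∈ S, M ≤ m → (⌊A x * F x m⌋₊).Prime) ∧
          (∀ m ∈ T, M ≤ m → (⌊B x * L x m⌋₊).Prime)} = 1) ∧
    (∀ A B : ℝ → ℝ, ContDiffOn ℝ 1 A (Set.Ioi 0) → (∀ x, 0 < x → 0 < A x) →
      ContDiffOn ℝ 1 B (Set.Ioi 0) → (∀ x, 0 < x → 0 < B x) →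
      ∀ S : Set ℕ, (Summable fun m : S => 1 / ((m : ℕ) : ℝ)) →
        ∀ᵐ x : ℝ, 0 < x → ∃ M : ℕ, ∀ m ∈ S, M ≤ m →
          ¬ (⌊A x * F x m⌋₊).Prime ∧ ¬ (⌊B x * L x m⌋₊).Prime) := by
  refine ⟨fun n => ?_, ?_, fun A B hA hA0 hB hB0 S hS => ?_⟩
  · induction n using Nat.twoStepInduction with
    | zero => simp [F]
    | one => simp [F]
    | more n h1 h2 =>
      show 1 * F 1 (n + 1) + F 1 n = _
      rw [h1, h2, Nat.fib_add_two]
      push_cast
      ring
  · obtain ⟨C, hC2, hC⟩ := Pool.Agent.Q43.LC.hyp_t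
    refine ⟨C, hC2, fun A B hA hA0 hB hB0 S T hST hlac a b ha hab => ?_⟩
    simp only [F_eq, L_eq]
    exact Pool.Agent.Q43.LC.dim_sinh two_pos ha hab fun b0 b1 h0 h1 =>
      hC _ _ (Pool.Agent.Q43.LC.logC1_of hA hA0 two_pos) (Pool.Agent.Q43.LC.logC1_of hB hB0 two_pos)
        S T hST hlac b0 b1 h0 h1
  · simp only [F_eq, L_eq]
    exact Pool.Agent.Q43.LC.ae_sinh two_pos
      (Q := fun x => ∃ M : ℕ, ∀ m ∈ S, M ≤ m → ¬ (⌊A x * Pool.Agent.Q43.LC.FF x m⌋₊).Prime ∧
        ¬ (⌊B x * Pool.Agent.Q43.LC.LL x m⌋₊).Prime)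
      (Pool.Agent.Q43.LC.hyp_ae (Pool.Agent.Q43.LC.logC1_of hA hA0 two_pos)
        (Pool.Agent.Q43.LC.logC1_of hB hB0 two_pos) hS)

end Pool.Agent.Results.MP_5893d7_nt.LacunaryIndices
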