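import Mathlib
import Pool.Agent.Q43.LC.HypAe

/-!
# The negative Pell equation with a real parameter: prescribed lacunary sets of prime indices

For a real number `y > 0` let `P y n` and `R y n` be defined by
`P y n + R y n √(y² + 1) = (y + √(y² + 1)) ^ n`, so that `(P y n)² - (y² + 1) (R y n)² = (-1) ^ n`.  For
`y = 1` and odd `n` these are the solutions of the equation `p² - 2 r² = -1` of the problem.  There is an
absolute constant `C` such that for all disjoint sets `S`, `T` whose union is lacunary with ratio `C`, the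
set of the `y` in any given interval for which the integer parts of `P y m` are prime for all large
`m ∈ S` and simultaneously those of `R y m` for all large `m ∈ T` has Hausdorff dimension `1`.  For almost
every `y` only finitely many are prime, if the sum of `1 / m` over `S` and `T` is finite.
-/

set_option autoImplicit false

namespace Pool.Agent.Results.MP_927e73_nt.LacunaryIndices

open MeasureTheory

/-- The first coordinates. -/
noncomputable def P (y : ℝ) : ℕ → ℝ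
  | 0 => 1
  | 1 => y
  | (n + 2) => 2 * y * P y (n + 1) + P y n

/-- The second coordinates. -/
noncomputable def R (y : ℝ) : ℕ → ℝ
  | 0 => 0
  | 1 => 1
  | (n + 2) => 2 * y * R y (n + 1) + R y n

/-- Any two elements `m < n` of the set satisfy `C m ≤ n`. -/
def Lacunary (C : ℕ) (S : Set ℕ) : Prop := ∀ m ∈ S, ∀ n ∈ S, m < n → C * m ≤ n

lemma R_eq (t : ℝ) (n : ℕ) : R (1 * Real.sinh t) n = Pool.Agent.Q43.LC.FF (2 * Real.sinh t) n := by
  rw [one_mul]
  induction n using Nat.twoStepInduction with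
  | zero => rfl
  | one => rfl
  | more n h1 h2 =>
    show 2 * Real.sinh t * R (Real.sinh t) (n + 1) + R (Real.sinh t) n = _
    rw [h1, h2]
    rfl

lemma P_eq (t : ℝ) (n : ℕ) :
    P (1 * Real.sinh t) n = 1 / 2 * Pool.Agent.Q43.LC.LL (2 * Real.sinh t) n := by
  rw [one_mul]
  induction n using Nat.twoStepInduction with
  | zero =>
    show (1 : ℝ) = 1 / 2 * 2
    norm_num
  | one =>
    show Real.sinh t = 1 / 2 * (2 * Real.sinh t)
    ring
  | more n h1 h2 =>
    show 2 * Real.sinh t * P (Real.sinh t) (n + 1) + P (Real.sinh t) n =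
      1 / 2 * (2 * Real.sinh t * Pool.Agent.Q43.LC.LL (2 * Real.sinh t) (n + 1) +
        Pool.Agent.Q43.LC.LL (2 * Real.sinh t) n)
    rw [h1, h2]
    ring

/-- Prescribed lacunary sets of prime indices: dimension `1`; and almost every parameter. -/
theorem result :
    (∀ (y : ℝ) (n : ℕ), P y n + R y n * Real.sqrt (y ^ 2 + 1) = (y + Real.sqrt (y ^ 2 + 1)) ^ n ∧
      P y n ^ 2 - (y ^ 2 + 1) * R y n ^ 2 = (-1) ^ n) ∧
    (∃ C : ℕ, 2 ≤ C ∧ ∀ A B : ℝ → ℝ, ContDiffOn ℝ 1 A (Set.Ioi 0) → (∀ y, 0 < y → 0 < A y) →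
      ContDiffOn ℝ 1 B (Set.Ioi 0) → (∀ y, 0 < y → 0 < B y) →
      ∀ S T : Set ℕ, Disjoint S T → Lacunary C (S ∪ T) → ∀ a b : ℝ, 0 ≤ a → a < b →
        dimH {y : ℝ | a < y ∧ y < b ∧ ∃ M : ℕ,
          (∀ m ∈ S, M ≤ m → (⌊A y * P y m⌋₊).Prime) ∧
          (∀ m ∈ T, M ≤ m → (⌊B y * R y m⌋₊).Prime)} = 1) ∧
    (∀ A B : ℝ → ℝ, ContDiffOn ℝ 1 A (Set.Ioi 0) → (∀ y, 0 < y → 0 < A y) →
      ContDiffOn ℝ 1 B (Set.Ioi 0) → (∀ y, 0 < y → 0 < B y) →
      ∀ S : Set ℕ, (Summable fun m : S => 1 / ((m : ℕ) : ℝ)) →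
        ∀ᵐ y : ℝ, 0 < y → ∃ M : ℕ, ∀ m ∈ S, M ≤ m →
          ¬ (⌊A y * P y m⌋₊).Prime ∧ ¬ (⌊B y * R y m⌋₊).Prime) := by
  refine ⟨fun y n => ?_, ?_, fun A B hA hA0 hB hB0 S hS => ?_⟩
  · have hs : Real.sqrt (y ^ 2 + 1) ^ 2 = y ^ 2 + 1 := Real.sq_sqrt (by positivity)
    set w := Real.sqrt (y ^ 2 + 1) with hw
    have h1 : ∀ n, P y n + R y n * w = (y + w) ^ n ∧ P y n - R y n * w = (y - w) ^ n := by
      intro n
      induction n using Nat.twoStepInduction with
      | zero => simp [P, R]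
      | one => simp [P, R]
      | more n h1 h2 =>
        obtain ⟨a1, a2⟩ := h1
        obtain ⟨b1, b2⟩ := h2
        have e1 : (y + w) ^ (n + 2) = 2 * y * (y + w) ^ (n + 1) + (y + w) ^ n := by
          rw [pow_succ, pow_succ]
          linear_combination (y + w) ^ n * hs
        have e2 : (y - w) ^ (n + 2) = 2 * y * (y - w) ^ (n + 1) + (y - w) ^ n := by
          rw [pow_succ, pow_succ]
          linear_combination (y - w) ^ n * hs
        constructor
        · show 2 * y * P y (n + 1) + P y n + (2 * y * R y (n + 1) + R y n) * w = _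
          rw [e1, ← a1, ← b1]
          ring
        · show 2 * y * P y (n + 1) + P y n - (2 * y * R y (n + 1) + R y n) * w = _
          rw [e2, ← a2, ← b2]
          ring
    obtain ⟨g1, g2⟩ := h1 n
    refine ⟨g1, ?_⟩
    have e3 : P y n ^ 2 - (y ^ 2 + 1) * R y n ^ 2 = (P y n + R y n * w) * (P y n - R y n * w) := by
      rw [← hs]
      ring
    rw [e3, g1, g2, ← mul_pow]
    congr 1
    linear_combination -hs
  · obtain ⟨C, hC2, hC⟩ := Pool.Agent.Q43.LC.hyp_t
    refine ⟨C, hC2, fun A B hA hA0 hB hB0 S T hST hlac a b ha hab => ?_⟩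
    refine Pool.Agent.Q43.LC.dim_sinh one_pos ha hab fun b0 b1 h0 h1 => ?_
    refine (hC _ _ (Pool.Agent.Q43.LC.logC1_of hB hB0 one_pos)
      (Pool.Agent.Q43.LC.logC1_mul (Pool.Agent.Q43.LC.logC1_of hA hA0 one_pos) (c := 1 / 2) (by norm_num))
      T S hST.symm (by rwa [Set.union_comm]) b0 b1 h0 h1).trans (dimH_mono ?_)
    rintro t ⟨t0, t1, M, h2, h3⟩
    refine ⟨t0, t1, M, fun m hm hge => ?_, fun m hm hge => ?_⟩
    · rw [P_eq, ← mul_assoc]
      exact h3 m hm hge
    · rw [R_eq]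
      exact h2 m hm hge
  · refine Pool.Agent.Q43.LC.ae_sinh one_pos
      (Q := fun y => ∃ M : ℕ, ∀ m ∈ S, M ≤ m → ¬ (⌊A y * P y m⌋₊).Prime ∧ ¬ (⌊B y * R y m⌋₊).Prime) ?_
    filter_upwards [Pool.Agent.Q43.LC.hyp_ae (Pool.Agent.Q43.LC.logC1_of hB hB0 one_pos)
      (Pool.Agent.Q43.LC.logC1_mul (Pool.Agent.Q43.LC.logC1_of hA hA0 one_pos) (c := 1 / 2) (by norm_num))
      hS] with t ht ht0
    obtain ⟨M, hM⟩ := ht ht0
    refine ⟨M, fun m hm hge => ?_⟩
    obtain ⟨g1, g2⟩ := hM m hm hge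
    rw [P_eq, R_eq, ← mul_assoc]
    exact ⟨g2, g1⟩

end Pool.Agent.Results.MP_927e73_nt.LacunaryIndices
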