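import Mathlib
import Pool.Agent.Q43.EX.Fin
import Pool.Agent.H447R2.ML.Spec

set_option autoImplicit false

/-!
# Generalized Wagstaff numbers: exceptional amplitudes

For an integer base `b ≥ 2`, a real `β > 0` and a prime `p` let `W b β p` be the `p`-rough part (the
product, with multiplicity, of the prime factors larger than `p`) of `⌊β b ^ p⌋ + 1`.  At the
amplitude `β = 1 / (b + 1)` the number `W b β p` is `(b ^ p + 1) / (b + 1)` itself, for every odd
prime `p` which does not divide `b + 1`.  Let `M b β n` be the number of primes `p ≤ n` for which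
`W b β p` is prime.  For almost every `β` it is known that `M b β n / log n` tends to
`e ^ γ / log b`.  We prove that the exceptional set is large in the sense of category and in the sense
of dimension, and that on it the number of primes can be as large as possible.  For every function `f`
tending to infinity, for comeagerly many `β` and simultaneously for all bases, `M b β n / π (n)` has
upper limit `1` and for every `ε > 0` one has `M b β n < ε f n` for infinitely many `n`.  For every base `b`, for all `0 ≤ δ < 1` and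
in every interval, the set of the `β` for which the upper limit of `M b β n / π (n)` is at least `δ`
has Hausdorff dimension at least `1 - δ`.
-/

namespace Pool.Agent.Results.MP_ce8d0c_nt.ExceptionalAmplitudes

open Filter Topology MeasureTheory

/-- The product, with multiplicity, of the prime factors of `m` that are larger than `p`. -/
def roughPart (p m : ℕ) : ℕ := (m.primeFactorsList.filter (fun r => p < r)).prod

/-- The `p`-rough part of `⌊β b ^ p⌋ + 1`. -/
noncomputable def W (b : ℕ) (β : ℝ) (p : ℕ) : ℕ := roughPart p (⌊β * (b : ℝ) ^ p⌋₊ + 1)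

open Classical in
/-- The number of primes `p ≤ n` for which `W b β p` is prime. -/
noncomputable def M (b : ℕ) (β : ℝ) (n : ℕ) : ℕ :=
  ((Finset.range (n + 1)).filter (fun p => p.Prime ∧ (W b β p).Prime)).card

lemma M_eq (b : ℕ) (β : ℝ) (n : ℕ) :
    M b β n = Pool.Agent.Q43.EX.Mc (Pool.Agent.Q43.EX.uB b β) n := by
  classical
  unfold M Pool.Agent.Q43.EX.Mc
  rfl

/-- The special points. -/
lemma special {b : ℕ} (hb : 2 ≤ b) {p : ℕ} (hp : p.Prime) (hp2 : p ≠ 2) (hpd : ¬ p ∣ b + 1) :
    W b (1 / ((b : ℝ) + 1)) p * (b + 1) = b ^ p + 1 := by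
  have hodd : Odd p := hp.odd_of_ne_two hp2
  obtain ⟨M, hM⟩ : b + 1 ∣ b ^ p + 1 := by
    have := hodd.nat_add_dvd_pow_add_pow b 1
    rwa [one_pow] at this
  have hMr : ((M : ℝ)) * (b + 1) = (b : ℝ) ^ p + 1 := by
    have : ((b : ℝ) ^ p + 1) = (((b ^ p + 1 : ℕ)) : ℝ) := by push_cast; ring
    rw [this, hM]
    push_cast; ring
  have hb0 : (0 : ℝ) < (b : ℝ) + 1 := by positivity
  have hb2 : (2 : ℝ) ≤ b := by exact_mod_cast hb
  have hM0 : 1 ≤ M := by
    rcases Nat.eq_zero_or_pos M with h | h
    · rw [h] at hM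
      simp at hM
    · exact h
  have hfl : ⌊1 / ((b : ℝ) + 1) * (b : ℝ) ^ p⌋₊ + 1 = M := by
    have h0 : ⌊1 / ((b : ℝ) + 1) * (b : ℝ) ^ p⌋₊ = M - 1 := by
      rw [Nat.floor_eq_iff (by positivity), Nat.cast_sub hM0, Nat.cast_one]
      have e : 1 / ((b : ℝ) + 1) * (b : ℝ) ^ p = M - 1 / ((b : ℝ) + 1) := by
        field_simp
        linarith
      rw [e]
      have h1 : 1 / ((b : ℝ) + 1) < 1 := by
        rw [div_lt_one hb0]; linarith
      have h2 : 0 < 1 / ((b : ℝ) + 1) := by positivity
      constructor <;> linarith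
    omega
  have hr := Pool.Agent.H447R2.ML.rough_quot (a := (b : ℤ)) (b := -1)
    (IsCoprime.neg_right isCoprime_one_right) (by omega) (by omega) hp
    (by
      intro h
      apply hpd
      have : ((p : ℕ) : ℤ) ∣ ((b + 1 : ℕ) : ℤ) := by push_cast; simpa using h
      exact_mod_cast this) (x := (M : ℝ)) (by
        push_cast
        rw [hodd.neg_one_pow]
        have hne : (b : ℝ) - -1 ≠ 0 := by linarith
        field_simp
        linarith)
  rw [Nat.floor_natCast] at hr
  have hgeom : (∑ i ∈ Finset.range p, (b : ℤ) ^ i * (-1) ^ (p - 1 - i)) * ((b : ℤ) - -1) =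
      (b : ℤ) ^ p - (-1) ^ p := (Commute.all (b : ℤ) (-1)).geom_sum₂_mul p
  rw [← hr, hodd.neg_one_pow] at hgeom
  unfold W
  rw [hfl]
  have h4 : ((roughPart p M : ℕ) : ℤ) * ((b : ℤ) + 1) = (b : ℤ) ^ p + 1 := by
    have h5 : (roughPart p M : ℤ) = (Pool.Agent.H305R2.roughPart p M : ℤ) := rfl
    rw [h5]
    linarith
  exact_mod_cast h4

/-- The values at `β = 1 / (b + 1)` are the generalized Wagstaff numbers.  For every function `f`
tending to infinity, for comeagerly many amplitudes and all bases the number of exponents is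
infinitely often almost `π (n)` and infinitely often less than every multiple of `f n`.  The set of
the amplitudes in an interval for which the exponents have upper density at least `δ` in the primes
has dimension at least `1 - δ`. -/
theorem result :
    (∀ b : ℕ, 2 ≤ b → ∀ p : ℕ, p.Prime → p ≠ 2 → ¬ p ∣ b + 1 →
      W b (1 / ((b : ℝ) + 1)) p * (b + 1) = b ^ p + 1) ∧
    (∀ f : ℕ → ℝ, Tendsto f atTop atTop →
      {β : ℝ | 0 < β → ∀ b : ℕ, 2 ≤ b →
        limsup (fun n : ℕ => (M b β n : ℝ) / Nat.primeCounting n) atTop = 1 ∧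
        ∀ ε : ℝ, 0 < ε → ∃ᶠ n in atTop, (M b β n : ℝ) < ε * f n} ∈ residual ℝ) ∧
    (∀ b : ℕ, 2 ≤ b → ∀ δ : ℝ, 0 ≤ δ → δ < 1 → ∀ s t : ℝ, 0 ≤ s → s < t →
      ENNReal.ofReal (1 - δ) ≤ dimH {β : ℝ | β ∈ Set.Ioo s t ∧
        δ ≤ limsup (fun n : ℕ => (M b β n : ℝ) / Nat.primeCounting n) atTop}) := by
  simp only [M_eq]
  refine ⟨fun b hb p hp hp2 hpd => special hb hp hp2 hpd, fun f hf => ?_,
    fun b hb δ h0 h1 s t hs hst => Pool.Agent.Q43.EX.dim_B hb h0 h1 hs hst⟩
  have h : ∀ᶠ β in residual ℝ, ∀ b : ℕ, 2 ≤ b → 0 < β →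
      limsup (fun n : ℕ => (Pool.Agent.Q43.EX.Mc (Pool.Agent.Q43.EX.uB b β) n : ℝ) /
        Nat.primeCounting n) atTop = 1 ∧
      ∀ ε : ℝ, 0 < ε → ∃ᶠ n in atTop,
        (Pool.Agent.Q43.EX.Mc (Pool.Agent.Q43.EX.uB b β) n : ℝ) < ε * f n := by
    rw [eventually_countable_forall]
    intro b
    by_cases hb : 2 ≤ b
    · filter_upwards [Pool.Agent.Q43.EX.generic_B hb hf] with β hβ _ h0
      exact hβ h0
    · exact Eventually.of_forall fun β h1 => absurd h1 hb
  filter_upwards [h] with β hβ h0 b hb
  exact hβ b hb h0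

end Pool.Agent.Results.MP_ce8d0c_nt.ExceptionalAmplitudes
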